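import Pool.Agent.W761.CB.Stms
import Pool.Agent.W975.CB.Ms
import Pool.Agent.W366.CB.Lam
import Pool.Agent.W417.CB.Ebc

/-!
# Bounds and measurability of the Weyl operators (part W1 of project CB)
-/

set_option autoImplicit false

open MeasureTheory
open scoped ENNReal
open Pool.Agent.W761.CB

namespace Pool.Agent.W991.CB

theorem h_ms : S_MS := Pool.Agent.W975.CB.proof_ms
theorem h_lam : S_LAM := Pool.Agent.W366.CB.proof_lam h_ms
theorem h_ebc : S_EBC := Pool.Agent.W417.CB.proof_ebc h_ms h_lam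

section
variable {X : Type}

theorem anti_pow (a b : ℝ) (S : Multiset X) :
    (S.antidiagonal.map fun p => a ^ Multiset.card p.1 * b ^ Multiset.card p.2).sum =
      (a + b) ^ Multiset.card S := by
  have h := Multiset.prod_map_add (s := S) (f := fun _ => a) (g := fun _ => b)
  simp only [Multiset.map_const', Multiset.prod_replicate] at h
  exact h.symm

theorem norm_prod_le (g : X → ℂ) (C : ℝ) (hC : 0 ≤ C) (hg : ∀ x, ‖g x‖ ≤ C) (S : Multiset X) :
    ‖(S.map g).prod‖ ≤ C ^ Multiset.card S :=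
  Pool.Agent.W366.CB.norm_prod g C hC hg S

theorem pp_bdd (w : X → ℂ) (F : Multiset X → ℂ) (K C c : ℝ) (hK : 0 ≤ K) (hC : 0 ≤ C)
    (hc : 0 ≤ c) (hw : ∀ x, ‖w x‖ ≤ K) (hF : ∀ S, ‖F S‖ ≤ C * c ^ Multiset.card S)
    (S : Multiset X) : ‖PP w F S‖ ≤ C * (K + c) ^ Multiset.card S := by
  unfold PP
  calc ‖(S.antidiagonal.map fun p => (p.1.map w).prod * F p.2).sum‖
      ≤ ((S.antidiagonal.map fun p => (p.1.map w).prod * F p.2).map fun x => ‖x‖).sum :=
        norm_multiset_sum_le _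
    _ = (S.antidiagonal.map fun p => ‖(p.1.map w).prod * F p.2‖).sum := by
        rw [Multiset.map_map]; rfl
    _ ≤ (S.antidiagonal.map fun p =>
          C * (K ^ Multiset.card p.1 * c ^ Multiset.card p.2)).sum := by
        apply Multiset.sum_map_le_sum_map
        intro p _
        rw [norm_mul]
        calc ‖(p.1.map w).prod‖ * ‖F p.2‖
            ≤ K ^ Multiset.card p.1 * (C * c ^ Multiset.card p.2) :=
              mul_le_mul (norm_prod_le w K hK hw _) (hF _) (norm_nonneg _) (by positivity)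
          _ = C * (K ^ Multiset.card p.1 * c ^ Multiset.card p.2) := by ring
    _ = C * (K + c) ^ Multiset.card S := by
        rw [Multiset.sum_map_mul_left, anti_pow]

variable [MeasurableSpace X] (ν : Measure X) [IsFiniteMeasure ν]

theorem qq_bdd (w : X → ℂ) (F : Multiset X → ℂ) (K C c : ℝ) (hK : 0 ≤ K) (hC : 0 ≤ C)
    (hc : 0 ≤ c) (hw : ∀ x, ‖w x‖ ≤ K) (hF : ∀ S, ‖F S‖ ≤ C * c ^ Multiset.card S)
    (S : Multiset X) :
    ‖QQ ν w F S‖ ≤ C * Real.exp (K * c * (ν Set.univ).toReal) * c ^ Multiset.card S := by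
  unfold QQ
  have hint := Pool.Agent.W366.CB.int_card ν (C * c ^ Multiset.card S) (K * c)
    (by positivity) (by positivity)
  have h1 : ‖∫ γ, ((ms γ).map w).prod * F (S + ms γ) ∂(lam ν)‖ ≤
      ∫ γ, C * c ^ Multiset.card S * (K * c) ^ Multiset.card (ms γ) ∂(lam ν) := by
    apply norm_integral_le_of_norm_le hint
    refine Filter.Eventually.of_forall fun γ => ?_
    rw [norm_mul]
    calc ‖((ms γ).map w).prod‖ * ‖F (S + ms γ)‖
        ≤ K ^ Multiset.card (ms γ) * (C * c ^ Multiset.card (S + ms γ)) :=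
          mul_le_mul (norm_prod_le w K hK hw _) (hF _) (norm_nonneg _) (by positivity)
      _ = C * c ^ Multiset.card S * (K * c) ^ Multiset.card (ms γ) := by
          rw [Multiset.card_add, pow_add, mul_pow]; ring
  refine h1.trans (le_of_eq ?_)
  rw [integral_eq_lintegral_of_nonneg_ae (Filter.Eventually.of_forall fun γ => by positivity)
    hint.aestronglyMeasurable]
  rw [(h_lam X ν).2.2.1 (C * c ^ Multiset.card S) (K * c) (by positivity) (by positivity)]
  rw [ENNReal.toReal_ofReal (by positivity)]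
  ring

theorem qq_meas (P : Type) [MeasurableSpace P] (w : P → X → ℂ) (F : Multiset X → ℂ)
    (hw : Measurable (fun q : P × X => w q.1 q.2)) (hF : EB F) :
    Measurable fun q : P × Cf X => QQ ν (w q.1) F (ms q.2) := by
  haveI : IsFiniteMeasure (lam ν) := (h_lam X ν).2.1
  have h1 : Measurable fun q : P × Cf X => ((ms q.2).map (w q.1)).prod :=
    (h_ms X).2.2.1 P w hw
  have h2 : Measurable (fun p : Cf X × Cf X => F (ms p.1 + ms p.2)) :=
    (h_ebc X ν F F hF hF).2.2.2.2.2.2.1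
  have h3 : Measurable (Function.uncurry fun (q : P × Cf X) (γ : Cf X) =>
      ((ms γ).map (w q.1)).prod * F (ms q.2 + ms γ)) := by
    apply Measurable.mul
    · exact h1.comp ((measurable_fst.comp measurable_fst).prodMk measurable_snd)
    · exact h2.comp ((measurable_snd.comp measurable_fst).prodMk measurable_snd)
  exact (h3.stronglyMeasurable.integral_prod_right (ν := lam ν)).measurable

theorem pp_meas (P : Type) [MeasurableSpace P] (w : P → X → ℂ) (G : P → Multiset X → ℂ)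
    (hw : Measurable (fun q : P × X => w q.1 q.2))
    (hG : Measurable fun q : P × Cf X => G q.1 (ms q.2)) :
    Measurable fun q : P × Cf X => PP (w q.1) (G q.1) (ms q.2) := by
  have h1 : Measurable fun q : P × Cf X => ((ms q.2).map (w q.1)).prod :=
    (h_ms X).2.2.1 P w hw
  have h2 := (h_ms X).2.2.2.2.2.1 P (fun p A B => (A.map (w p)).prod * G p B) (by
    apply Measurable.mul
    · exact h1.comp (measurable_fst.prodMk (measurable_fst.comp measurable_snd))
    · exact hG.comp (measurable_fst.prodMk (measurable_snd.comp measurable_snd)))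
  exact h2

theorem dd_meas (P : Type) [MeasurableSpace P] (w : P → X → ℂ) (F : Multiset X → ℂ)
    (hw : Measurable (fun q : P × X => w q.1 q.2)) (hF : EB F) :
    Measurable fun q : P × Cf X => DD ν (w q.1) F (ms q.2) := by
  have h1 : Measurable (fun p : P => ∫ x, ‖w p x‖ ^ 2 ∂ν) := by
    have : Measurable (Function.uncurry fun (p : P) (x : X) => ‖w p x‖ ^ 2) :=
      (hw.norm.pow_const 2)
    exact (this.stronglyMeasurable.integral_prod_right (ν := ν)).measurable
  have h2 : Measurable fun q : P × Cf X => PP (w q.1)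
      (QQ ν (fun x => -(starRingEnd ℂ) (w q.1 x)) F) (ms q.2) := by
    apply pp_meas P w (fun p => QQ ν (fun x => -(starRingEnd ℂ) (w p x)) F) hw
    apply qq_meas ν P (fun p x => -(starRingEnd ℂ) (w p x)) F _ hF
    exact (Complex.continuous_conj.measurable.comp hw).neg
  unfold DD
  apply Measurable.mul _ h2
  apply Complex.measurable_exp.comp
  apply Measurable.div_const
  apply Measurable.neg
  exact Complex.measurable_ofReal.comp (h1.comp measurable_fst)


theorem pp_meas1 (w : X → ℂ) (G : Multiset X → ℂ) (hw : Measurable w) (hG : EB G) :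
    Measurable fun γ : Cf X => PP w G (ms γ) := by
  have hu : Measurable (fun q : Unit × X => w q.2) := hw.comp measurable_snd
  have hi : Measurable (fun γ : Cf X => ((), γ)) := measurable_const.prodMk measurable_id
  have h1 : Measurable fun q : Unit × Cf X => PP w G (ms q.2) :=
    pp_meas Unit (fun _ => w) (fun _ => G) hu (hG.meas.comp measurable_snd)
  exact h1.comp hi

theorem qq_meas1 (w : X → ℂ) (F : Multiset X → ℂ) (hw : Measurable w) (hF : EB F) :
    Measurable fun γ : Cf X => QQ ν w F (ms γ) := by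
  have hu : Measurable (fun q : Unit × X => w q.2) := hw.comp measurable_snd
  have hi : Measurable (fun γ : Cf X => ((), γ)) := measurable_const.prodMk measurable_id
  have h1 : Measurable fun q : Unit × Cf X => QQ ν w F (ms q.2) :=
    qq_meas ν Unit (fun _ => w) F hu hF
  exact h1.comp hi

theorem qq_eb (w : X → ℂ) (F : Multiset X → ℂ) (K C c : ℝ) (hK : 0 ≤ K) (hC : 0 ≤ C)
    (hc : 1 ≤ c) (hw : Measurable w) (hwK : ∀ x, ‖w x‖ ≤ K) (hF : EB F)
    (hb : ∀ S, ‖F S‖ ≤ C * c ^ Multiset.card S) : EB (QQ ν w F) :=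
  ⟨qq_meas1 ν w F hw hF, C * Real.exp (K * c * (ν Set.univ).toReal), c,
    mul_nonneg hC (Real.exp_pos _).le, hc,
    qq_bdd ν w F K C c hK hC (le_trans zero_le_one hc) hwK hb⟩

theorem dd_meas1 (w : X → ℂ) (F : Multiset X → ℂ) (K : ℝ) (hK : 0 ≤ K) (hw : Measurable w)
    (hwK : ∀ x, ‖w x‖ ≤ K) (hF : EB F) :
    Measurable fun γ : Cf X => DD ν w F (ms γ) := by
  have hw' : Measurable (fun x => -(starRingEnd ℂ) (w x)) :=
    (Complex.continuous_conj.measurable.comp hw).neg
  have hwK' : ∀ x, ‖-(starRingEnd ℂ) (w x)‖ ≤ K := by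
    intro x
    rw [norm_neg, RCLike.norm_conj]
    exact hwK x
  obtain ⟨C, c, hC, hc, hb⟩ := hF.bdd
  have h2 : Measurable fun γ : Cf X => PP w (QQ ν (fun x => -(starRingEnd ℂ) (w x)) F) (ms γ) :=
    pp_meas1 w _ hw (qq_eb ν _ F K C c hK hC hc hw' hwK' hF hb)
  exact h2.const_mul (Complex.exp (-((∫ x, ‖w x‖ ^ 2 ∂ν : ℝ) : ℂ) / 2))

theorem dd_bdd (w : X → ℂ) (F : Multiset X → ℂ) (K C c : ℝ) (hK : 0 ≤ K) (hC : 0 ≤ C)
    (hc : 0 ≤ c) (hw : ∀ x, ‖w x‖ ≤ K) (hb : ∀ S, ‖F S‖ ≤ C * c ^ Multiset.card S)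
    (S : Multiset X) : ‖DD ν w F S‖ ≤
      C * Real.exp (K * c * (ν Set.univ).toReal) * (K + c) ^ Multiset.card S := by
  have hwK'' : ∀ x, ‖-(starRingEnd ℂ) (w x)‖ ≤ K := by
    intro x
    rw [norm_neg, RCLike.norm_conj]
    exact hw x
  have h1 : ‖Complex.exp (-((∫ x, ‖w x‖ ^ 2 ∂ν : ℝ) : ℂ) / 2)‖ ≤ 1 := by
    rw [Complex.norm_exp, Real.exp_le_one_iff]
    have h2 : 0 ≤ ∫ x, ‖w x‖ ^ 2 ∂ν := integral_nonneg fun x => by positivity
    have h3 : (-((∫ x, ‖w x‖ ^ 2 ∂ν : ℝ) : ℂ) / 2).re = -(∫ x, ‖w x‖ ^ 2 ∂ν) / 2 := by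
      generalize (∫ x, ‖w x‖ ^ 2 ∂ν) = r
      rw [Complex.div_ofNat_re, Complex.neg_re, Complex.ofReal_re]
    rw [h3]
    linarith
  have h4 := pp_bdd w (QQ ν (fun x => -(starRingEnd ℂ) (w x)) F) K
    (C * Real.exp (K * c * (ν Set.univ).toReal)) c hK (by positivity) hc hw
    (qq_bdd ν (fun x => -(starRingEnd ℂ) (w x)) F K C c hK hC hc hwK'' hb) S
  have h5 : ‖DD ν w F S‖ = ‖Complex.exp (-((∫ x, ‖w x‖ ^ 2 ∂ν : ℝ) : ℂ) / 2)‖ *
      ‖PP w (QQ ν (fun x => -(starRingEnd ℂ) (w x)) F) S‖ := by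
    unfold DD
    rw [norm_mul]
  rw [h5]
  calc _ ≤ 1 * (C * Real.exp (K * c * (ν Set.univ).toReal) * (K + c) ^ Multiset.card S) :=
        mul_le_mul h1 h4 (norm_nonneg _) zero_le_one
    _ = _ := one_mul _

/-- the Weyl operators: bounds and measurability -/
theorem proof_w1 : S_W1 := by
  intro X _ ν _
  refine ⟨?_, fun P _ w F hw hF => dd_meas ν P w F hw hF⟩
  intro F hF K
  obtain ⟨C, c, hC, hc, hb⟩ := hF.bdd
  have hc0 : 0 ≤ c := le_trans zero_le_one hc
  have hK : 0 ≤ |K| := abs_nonneg K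
  have hC' : 0 ≤ C * Real.exp (|K| * c * (ν Set.univ).toReal) :=
    mul_nonneg hC (Real.exp_pos _).le
  have hcK : 1 ≤ |K| + c := by linarith
  refine ⟨C * Real.exp (|K| * c * (ν Set.univ).toReal), |K| + c, hC', hcK, ?_⟩
  intro w hw hwK
  have hwK' : ∀ x, ‖w x‖ ≤ |K| := fun x => (hwK x).trans (le_abs_self K)
  refine ⟨?_, ?_, ?_, ?_⟩
  · exact ⟨pp_meas1 w F hw hF, C, |K| + c, hC, hcK, pp_bdd w F |K| C c hK hC hc0 hwK' hb⟩
  · exact ⟨qq_meas1 ν w F hw hF, C * Real.exp (|K| * c * (ν Set.univ).toReal), c, hC', hc,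
      qq_bdd ν w F |K| C c hK hC hc0 hwK' hb⟩
  · exact ⟨dd_meas1 ν w F |K| hK hw hwK' hF, C * Real.exp (|K| * c * (ν Set.univ).toReal), |K| + c, hC', hcK,
      dd_bdd ν w F |K| C c hK hC hc0 hwK' hb⟩
  · exact dd_bdd ν w F |K| C c hK hC hc0 hwK' hb

end

end Pool.Agent.W991.CB
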